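import Mathlib
import Pool.Agent.U455.JB
import Pool.Agent.U455.JM

/-!
# Finite automata and piecewise relations for the digits of `π + e` and of `π - e`

One of the numbers `π + e`, `π - e` is irrational; the digits of a rational number are predicted by a
finite automaton with finitely many errors.  We prove that two automata (or, more generally, two
devices with many recurrences or algebraic relations) cannot predict the digits of both numbers with
few errors, where the automata may use the digits which they have read, and where every stretch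
between two errors may satisfy a relation of its own.

* (1), (2): two different bases and two different lengths are allowed, and relations of any degree.
* (3): the same base, with explicit constants, uniformly in all real numbers in the place of `π`.
* (4): a statement for every large scale.

The proof: multiplied by `b^u` a number turns a relation for a block of its digits, from the
`(u+1)`-st to the `v`-th, into an integer polynomial of bounded degree which is small at the number.
Two such polynomials for the two numbers contradict the joint measure of the two numbers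
(`Pool.Agent.R356`, from the measure of transcendence of `e`).  If the blocks of one number are
`(u_i, v_i]` and those of the other one `(u'_j, v'_j]`, then by induction on `i + j` the smaller one of
the starting points `u_i`, `u'_j` (in a logarithmic scale) grows at most exponentially in `i + j`
(`Pool.Agent.U455.JB.blocks2`).
-/

set_option autoImplicit false

namespace Pool.Agent.Results.MP_363d4d_nt.DigitBlocks

open Finset Polynomial

/-- the `i`-th digit of `x` after the point in base `b` -/
noncomputable def digit (b : ℕ) (x : ℝ) (i : ℕ) : ℤ := ⌊x * (b : ℝ) ^ i⌋ % (b : ℤ)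

/-- the polynomial `d_(u+1) X + ⋯ + d_v X^(v-u)`, where `d_i` is the `i`-th digit of `x` -/
noncomputable def blockPoly (b : ℕ) (x : ℝ) (u v : ℕ) : ℚ[X] :=
  ∑ l ∈ Icc 1 (v - u), C (digit b x (u + l) : ℚ) * X ^ l

/-- there is a nonzero polynomial `P(X, Y)` over `ℚ` of degree `≤ r` in `Y` and `≤ k` in `X` such
that `P(X, D(X))` is divisible by `X^(v-u+1)`, where `D(X) = d_(u+1) X + ⋯ + d_v X^(v-u)` -/
def AlgRelation (b : ℕ) (x : ℝ) (r u v k : ℕ) : Prop :=
  ∃ P : ℚ[X][X], P ≠ 0 ∧ P.natDegree ≤ r ∧ (∀ j, (P.coeff j).natDegree ≤ k) ∧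
    X ^ (v - u + 1) ∣ P.eval (blockPoly b x u v)

/-- The first `N` digits of `x` in base `b` are covered by `s` blocks, from the `(u_i + 1)`-st to the
`v_i`-th digit, `i < s`, where `u_0 = 0`, `u_s = N` and `u_(i+1) ≤ v_i + 1` (one digit may be omitted
between two blocks), and every block satisfies an algebraic relation of degree at most `r` with
coefficients of degree at most `k` (each block one of its own). -/
def Blocks (b : ℕ) (x : ℝ) (r k s N : ℕ) : Prop :=
  ∃ u v : ℕ → ℕ, u 0 = 0 ∧ u s = N ∧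
    ∀ i < s, u i ≤ v i ∧ u (i + 1) ≤ v i + 1 ∧ AlgRelation b x r (u i) (v i) k

/-- the state of the automaton with transitions `δ` and initial state `q₀` after it has read
`d 1, …, d n` -/
def run {Q : ℕ} (δ : Fin Q → ℤ → Fin Q) (q₀ : Fin Q) (d : ℕ → ℤ) : ℕ → Fin Q
  | 0 => q₀
  | n + 1 => δ (run δ q₀ d n) (d (n + 1))

/-- the number of errors of the automaton on `d 1, …, d N`: the number of `n < N` such that the
prediction `out` of the state after `d 1, …, d n` is not `d (n + 1)` -/
def errors {Q : ℕ} (δ : Fin Q → ℤ → Fin Q) (q₀ : Fin Q) (out : Fin Q → ℤ) (d : ℕ → ℤ) (N : ℕ) : ℕ :=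
  ((range N).filter fun n => out (run δ q₀ d n) ≠ d (n + 1)).card

/-- Every stretch `u+1, …, v` of the first `N` places which contains no place `i + 1` with `i ∈ E` is
such that the digits of `x` at these places satisfy a linear recurrence of order `m` over `ℚ` (which
may depend on the stretch). So the first `N` digits are cut at the places in `E` into pieces of linear
complexity at most `m`. -/
def Cut (b : ℕ) (x : ℝ) (N m : ℕ) (E : Finset ℕ) : Prop :=
  ∀ u v, u ≤ v → v ≤ N → (∀ i ∈ E, i < u ∨ v ≤ i) → ∃ c : ℕ → ℚ, ∀ i, u ≤ i → i + m < v →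
    (digit b x (i + m + 1) : ℚ) = ∑ l ∈ range m, c l * (digit b x (i + l + 1) : ℚ)

/-- The first `N` digits of `x` in base `b` are not cut at `c log N` or fewer places into pieces which
satisfy linear recurrences of order at most `N ^ θ`. -/
def Rough (θ c : ℝ) (b N : ℕ) (x : ℝ) : Prop :=
  ∀ (m : ℕ) (E : Finset ℕ), (m : ℝ) ≤ (N : ℝ) ^ θ → (E.card : ℝ) ≤ c * Real.log N → ¬ Cut b x N m E

theorem brel_of_alg {b : ℕ} {x : ℝ} {r u v k : ℕ} (h : AlgRelation b x r u v k) :
    Pool.Agent.U455.JB.BRel b x r u v k := by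
  obtain ⟨P, hP0, hPr, hPk, hX⟩ := h
  refine ⟨fun j => P.coeff j, ?_, fun j => hPk j, ?_⟩
  · intro h0
    apply hP0
    ext1 j
    by_cases hj : j < r + 1
    · have := congrFun h0 ⟨j, hj⟩
      simpa using this
    · rw [coeff_eq_zero_of_natDegree_lt (by omega), coeff_zero]
  · rw [eval_eq_sum_range' (show P.natDegree < r + 1 by omega), Finset.sum_range] at hX
    exact hX

theorem run_eq {Q : ℕ} (δ : Fin Q → ℤ → Fin Q) (q₀ : Fin Q) (d : ℕ → ℤ) (n : ℕ) :
    run δ q₀ d n = Pool.Agent.R473.FP.run δ q₀ d n := by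
  induction n with
  | zero => rfl
  | succ n ih =>
    change δ (run δ q₀ d n) (d (n + 1)) = δ (Pool.Agent.R473.FP.run δ q₀ d n) (d (n + 1))
    rw [ih]

theorem errors_eq {Q : ℕ} (δ : Fin Q → ℤ → Fin Q) (q₀ : Fin Q) (out : Fin Q → ℤ) (d : ℕ → ℤ)
    (N : ℕ) : errors δ q₀ out d N = Pool.Agent.R473.FP.errors δ q₀ out d N := by
  unfold errors Pool.Agent.R473.FP.errors
  simp only [run_eq]

/-- the joint measure of two linear forms -/
theorem joint_lin (t : ℝ) (a b c d : ℤ) (h : a * d - b * c ≠ 0) :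
    Pool.Agent.R356.JointR (a * Real.exp 1 + b * t) (c * Real.exp 1 + d * t) :=
  Pool.Agent.R473.JC.jointR_of_alg (Real.exp 1) Pool.Agent.TH456.TM.measT_e _ _
    (Pool.Agent.R473.JC.alg_lin (Real.exp 1) t a b c d h)

theorem blocks_joint (x y : ℝ) (hxy : Pool.Agent.R356.JointR x y) (r : ℕ) : ∃ A : ℝ, 1 ≤ A ∧
    ∀ β β' : ℕ, 2 ≤ β → 2 ≤ β' → ∀ k k' s s' N N' : ℕ, Blocks β x r k s N →
      Blocks β' y r k' s' N' →
      min (N * Real.log β) (N' * Real.log β') ≤
        A ^ (s + s') * ((k + 1) * Real.log β + (k' + 1) * Real.log β') := by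
  obtain ⟨A, hA, h⟩ := Pool.Agent.U455.JB.blocks2 x y hxy r
  refine ⟨A, hA, fun β β' hβ hβ' k k' s s' N N' hN hN' => ?_⟩
  obtain ⟨u, v, hu0, hus, hb⟩ := hN
  obtain ⟨u', v', hu0', hus', hb'⟩ := hN'
  have h1 := h β β' hβ hβ' k k' u v u' v' hu0 hu0' s s'
    (fun i hi => ⟨(hb i hi).1, (hb i hi).2.1, brel_of_alg (hb i hi).2.2⟩)
    (fun i hi => ⟨(hb' i hi).1, (hb' i hi).2.1, brel_of_alg (hb' i hi).2.2⟩)
  rw [hus, hus'] at h1
  exact h1

theorem fs_joint (x y : ℝ) (hxy : Pool.Agent.R356.JointR x y) : ∃ A : ℝ, 1 ≤ A ∧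
    ∀ β β' : ℕ, 2 ≤ β → 2 ≤ β' → ∀ (Q Q' : ℕ) (δ : Fin Q → ℤ → Fin Q) (q₀ : Fin Q)
      (out : Fin Q → ℤ) (δ' : Fin Q' → ℤ → Fin Q') (q₀' : Fin Q') (out' : Fin Q' → ℤ) (N N' : ℕ),
      min (N * Real.log β) (N' * Real.log β') ≤
        A ^ (errors δ q₀ out (digit β x) N + errors δ' q₀' out' (digit β' y) N' + 2) *
          ((Q + 1) * Real.log β + (Q' + 1) * Real.log β') := by
  obtain ⟨A, hA, h⟩ := Pool.Agent.U455.JB.predictors2 x y hxy
  refine ⟨A, hA, fun β β' hβ hβ' Q Q' δ q₀ out δ' q₀' out' N N' => ?_⟩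
  rw [errors_eq, errors_eq]
  exact h β β' hβ hβ' Q Q' δ q₀ out δ' q₀' out' N N'

/-- Let `u = a e + b t` and `v = c e + d t`, where `t` is any real number and `a, b, c, d` are integers
with `a d ≠ b c`.  (For `t = π` examples are `π + e` and `π - e`.)

**(1)** For every `r` there is `A` such that for all bases `β`, `β'`: if the first `N` digits of `u` in
base `β` are covered by `s` blocks with algebraic relations of degree `≤ r` with coefficients of degree
`≤ k`, and the first `N'` digits of `v` in base `β'` by `s'` such blocks with `k'` in place of `k`, then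
`min (N log β, N' log β') ≤ A^(s+s') ((k+1) log β + (k'+1) log β')`.

**(2)** There is `A` such that for all bases and all automata with `Q` and `Q'` states which predict
the digits of `u` in base `β` and of `v` in base `β'` and make `E` and `E'` errors on the first `N` and
`N'` digits: `min (N log β, N' log β') ≤ A^(E+E'+2) ((Q+1) log β + (Q'+1) log β')`.

**(3)** For every `η > 0` there is `C`, which does not depend on `t` and `β`, such that in the same base
`β`: if the first `N` digits of `u` are cut at the places in `E` into pieces with linear recurrences of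
order `m`, and those of `v` at the places in `F` into pieces with linear recurrences of order `n`, then
`N ≤ ((2+η) + ⋯ + (2+η)^(|E|+|F|+1)) (m + n + C √((m+n+1) log (m+n+2)))`; and the same holds for two
automata with `m` and `n` states which make `|E|` and `|F|` errors.

**(4)** If `θ + 2 c log 2 < 1` then, at every large scale `N` and in every base, the first `N` digits of
`π + e` or those of `π - e` are not cut at `c log N` or fewer places into pieces with linear recurrences
of order at most `N ^ θ`. -/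
theorem result :
    (∀ (t : ℝ) (a b c d : ℤ), a * d - b * c ≠ 0 → ∀ r : ℕ, ∃ A : ℝ, 1 ≤ A ∧
      ∀ β β' : ℕ, 2 ≤ β → 2 ≤ β' → ∀ k k' s s' N N' : ℕ,
        Blocks β (a * Real.exp 1 + b * t) r k s N →
        Blocks β' (c * Real.exp 1 + d * t) r k' s' N' →
        min (N * Real.log β) (N' * Real.log β') ≤
          A ^ (s + s') * ((k + 1) * Real.log β + (k' + 1) * Real.log β')) ∧
    (∀ (t : ℝ) (a b c d : ℤ), a * d - b * c ≠ 0 → ∃ A : ℝ, 1 ≤ A ∧
      ∀ β β' : ℕ, 2 ≤ β → 2 ≤ β' → ∀ (Q Q' : ℕ) (δ : Fin Q → ℤ → Fin Q) (q₀ : Fin Q)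
        (out : Fin Q → ℤ) (δ' : Fin Q' → ℤ → Fin Q') (q₀' : Fin Q') (out' : Fin Q' → ℤ)
        (N N' : ℕ),
        min (N * Real.log β) (N' * Real.log β') ≤
          A ^ (errors δ q₀ out (digit β (a * Real.exp 1 + b * t)) N +
            errors δ' q₀' out' (digit β' (c * Real.exp 1 + d * t)) N' + 2) *
            ((Q + 1) * Real.log β + (Q' + 1) * Real.log β')) ∧
    (∀ (a b c d : ℤ), a * d - b * c ≠ 0 → ∀ η : ℝ, 0 < η → ∃ C : ℝ, ∀ (t : ℝ) (β : ℕ), 2 ≤ β →
      ∀ N m n : ℕ,
        (∀ E F : Finset ℕ, Cut β (a * Real.exp 1 + b * t) N m E →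
          Cut β (c * Real.exp 1 + d * t) N n F →
          (N : ℝ) ≤ (∑ i ∈ range (E.card + F.card + 1), (2 + η) ^ (i + 1)) *
            ((m : ℝ) + n + C * Real.sqrt (((m : ℝ) + n + 1) * Real.log ((m : ℝ) + n + 2)))) ∧
        ∀ (δ : Fin m → ℤ → Fin m) (q₀ : Fin m) (out : Fin m → ℤ) (δ' : Fin n → ℤ → Fin n)
          (q₀' : Fin n) (out' : Fin n → ℤ),
          (N : ℝ) ≤ (∑ i ∈ range (errors δ q₀ out (digit β (a * Real.exp 1 + b * t)) N +
              errors δ' q₀' out' (digit β (c * Real.exp 1 + d * t)) N + 1), (2 + η) ^ (i + 1)) *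
            ((m : ℝ) + n + C * Real.sqrt (((m : ℝ) + n + 1) * Real.log ((m : ℝ) + n + 2)))) ∧
    (∀ θ c : ℝ, 0 ≤ θ → 0 ≤ c → θ + 2 * c * Real.log 2 < 1 → ∃ N₀ : ℕ, ∀ β : ℕ, 2 ≤ β →
      ∀ N : ℕ, N₀ ≤ N →
        Rough θ c β N (Real.pi + Real.exp 1) ∨ Rough θ c β N (Real.pi - Real.exp 1)) := by
  refine ⟨fun t a b c d h r => blocks_joint _ _ (joint_lin t a b c d h) r,
    fun t a b c d h => fs_joint _ _ (joint_lin t a b c d h), ?_, ?_⟩
  · intro a b c d h η hη
    obtain ⟨c0, hc0, hM⟩ := Pool.Agent.U455.JM.lin_meas a b c d h η hη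
    obtain ⟨C, hC, hcut⟩ := Pool.Agent.U455.JM.cut2_unif (2 + η) c0 (by linarith) hc0
    refine ⟨C, fun t β hβ N m n => ⟨fun E F hE hF => ?_, fun δ q₀ out δ' q₀' out' => ?_⟩⟩
    · have h1 := hcut _ _ (hM t) β hβ N m n E F hE hF
      unfold Pool.Agent.W47.JL.err at h1
      push_cast at h1
      exact h1
    · have h1 := hcut _ _ (hM t) β hβ N m n _ _
        (Pool.Agent.U455.JM.cut_of_fs β _ δ q₀ out N) (Pool.Agent.U455.JM.cut_of_fs β _ δ' q₀' out' N)
      unfold Pool.Agent.W47.JL.err at h1
      push_cast at h1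
      rw [errors_eq, errors_eq]
      exact h1
  · intro θ c hθ hc hlt
    obtain ⟨η, hη0, hη⟩ : ∃ η : ℝ, 0 < η ∧ c * (2 * Real.log (2 + η)) + θ < 1 := by
      have hcont : Filter.Tendsto (fun η : ℝ => c * (2 * Real.log (2 + η)) + θ) (nhdsWithin 0 (Set.Ioi 0))
          (nhds (c * (2 * Real.log (2 + 0)) + θ)) := by
        refine tendsto_nhdsWithin_of_tendsto_nhds ?_
        refine ContinuousAt.tendsto (f := fun η : ℝ => c * (2 * Real.log (2 + η)) + θ) ?_
        refine ContinuousAt.add (ContinuousAt.mul continuousAt_const (ContinuousAt.mul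
          continuousAt_const (ContinuousAt.log (by fun_prop) (by norm_num)))) continuousAt_const
      have hlt' : c * (2 * Real.log (2 + 0)) + θ < 1 := by rw [add_zero]; linarith
      have h1 := (hcont.eventually_lt_const hlt').and self_mem_nhdsWithin
      obtain ⟨η, h2, h3⟩ := h1.exists
      exact ⟨η, h3, h2⟩
    obtain ⟨c0, hc0, hM⟩ := Pool.Agent.U455.JM.lin_meas 1 1 (-1) 1 (by norm_num) η hη0
    have hM' : Pool.Agent.W47.JL.Meas 2 ![Real.pi + Real.exp 1, Real.pi - Real.exp 1] (2 + η) c0 0 := by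
      have h1 := hM Real.pi
      have e1 : ((1 : ℤ) : ℝ) * Real.exp 1 + ((1 : ℤ) : ℝ) * Real.pi = Real.pi + Real.exp 1 := by
        push_cast; ring
      have e2 : ((-1 : ℤ) : ℝ) * Real.exp 1 + ((1 : ℤ) : ℝ) * Real.pi = Real.pi - Real.exp 1 := by
        push_cast; ring
      rwa [e1, e2] at h1
    obtain ⟨N₀, h0⟩ := Pool.Agent.N553.PC.cut_large 2 _ (2 + η) c0 0 (by linarith) hc0 le_rfl hM' θ c
      hθ hc (by push_cast; exact hη)
    refine ⟨N₀, fun β hβ N hN => ?_⟩
    obtain ⟨j, hj⟩ := h0 β hβ N hN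
    fin_cases j
    · exact Or.inl hj
    · exact Or.inr hj

end Pool.Agent.Results.MP_363d4d_nt.DigitBlocks
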