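import Pool.Agent.U455.ASF
import Pool.Agent.U455.APC

/-!
# Prime tuples in arbitrary dense sets of primes of a progression, uniformly in the modulus

Let `q ≥ 1` and `r` be coprime and `V = ∏ (1 - 1 / p)` over the primes `p ≤ X` not dividing `q`, so `X V` is the expected
order of the number of the `n` of an interval `(a, a + X]` with `n q + r` prime (for `n q + r` up to a power of `X`), and
`X Vᵏ⁺¹` times a singular series that of the number of the `n` with all `n q + r`, `(n + d₁) q + r`, ..., `(n + d_k) q + r`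
prime.

For every `k ≥ 1` and `δ > 0` there are `h`, `M ≥ 1`, `κ, ρ > 0` and `K`, depending on `k` and `δ` ONLY, such that for all
large `X`, ALL coprime `q ≥ 1` and `r`, ALL `a`, EVERY set `Q` of at least `δ X V` integers `n` of `(a, a + X]` with
`n q + r > X` prime, and ALL `L` with `K / V ≤ L ≤ X`:

* at least `ρ Lᵏ` of the `k`-element sets `T ⊆ [1, L]` have at least `κ X Vᵏ⁺¹` positions `n ∈ Q` with all `n + t ∈ Q`,
  `t ∈ T`;
* EVERY vector `t ∈ (M ℤ)ᵏ` with `|t i| ≤ L` is a sum of at most `h` vectors `d` of `k` distinct nonzero integers with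
  `|d i| ≤ L` for which at least `κ X Vᵏ⁺¹` of the `n ∈ Q` have all `n + d i ∈ Q`.

So for a positive proportion of the patterns `0, q t₁, ..., q t_k` of multiples of `q`, at every scale, the number of the
prime tuples in the dense set is of the order of magnitude conjectured by Hardy and Littlewood for all primes, uniformly in
the modulus and in the dense set.

Proof: convexity in cells of length `L`; upper bound sieve with arbitrary classes (`Pool.Agent.U455.ASZ.upT`); mean value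
of the collision weights over very short shifts (`Pool.Agent.U455.ASG.avG`) and second moment over the shapes
(`Pool.Agent.U455.ASF.momS`); local form of Schnirelmann's theorem and rotations of the shapes
(`Pool.Agent.U455.ASZ.vecP`).
-/

set_option autoImplicit false

namespace Pool.Agent.Results.MP_68a45e_nt.ShapesUniformInModulus

open Filter Finset

/-- the product of `1 - 1 / p` over the primes `p ≤ X` which do not divide `q` -/
noncomputable def V (q X : ℕ) : ℝ := ∏ p ∈ (Icc 1 X).filter (fun p => p.Prime ∧ ¬ p ∣ q), (1 - 1 / (p : ℝ))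

/-- the number of the `n ∈ Q` with all `n + t ∈ Q`, `t ∈ T` -/
def positions (Q T : Finset ℕ) : ℕ := (Q.filter (fun n => ∀ t ∈ T, n + t ∈ Q)).card

open Classical in
/-- the number of the `n ∈ Q` with all `n + d i` in `Q` -/
noncomputable def count {k : ℕ} (Q : Finset ℕ) (d : Fin k → ℤ) : ℕ :=
  (Q.filter (fun n : ℕ => ∀ i, ∃ m ∈ Q, (m : ℤ) = (n : ℤ) + d i)).card

theorem result (k : ℕ) (hk : 1 ≤ k) (δ : ℝ) (hδ : 0 < δ) :
    ∃ h M : ℕ, 1 ≤ M ∧ ∃ κ ρ K : ℝ, 0 < κ ∧ 0 < ρ ∧ ∃ X₀ : ℕ, ∀ X : ℕ, X₀ ≤ X →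
    ∀ q r a : ℕ, 1 ≤ q → Nat.Coprime q r → ∀ Q : Finset ℕ, Q ⊆ Ioc a (a + X) →
      (∀ n ∈ Q, (n * q + r).Prime ∧ X < n * q + r) → δ * (X * V q X) ≤ Q.card →
      ∀ L : ℕ, K ≤ V q X * L → L ≤ X →
        (∃ P : Finset (Finset ℕ), ρ * (L : ℝ) ^ k ≤ (P.card : ℝ) ∧
          ∀ T ∈ P, T.card = k ∧ T ⊆ Icc 1 L ∧ κ * (X * V q X ^ (k + 1)) ≤ (positions Q T : ℝ)) ∧
        ∀ t : Fin k → ℤ, (∀ i, (M : ℤ) ∣ t i) → (∀ i, |t i| ≤ (L : ℤ)) →
          ∃ l : List (Fin k → ℤ), l.length ≤ h ∧ l.sum = t ∧ ∀ d ∈ l,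
            (∀ i, d i ≠ 0) ∧ Function.Injective d ∧ (∀ i, |d i| ≤ (L : ℤ)) ∧
              κ * (X * V q X ^ (k + 1)) ≤ (count Q d : ℝ) := by
  classical
  obtain ⟨h, M, hM, c, ρ, K, hc, hρ, X₀, hmain⟩ := Pool.Agent.U455.ASF.main k hk 1 1 1 δ one_pos le_rfl hδ
  refine ⟨h, M, hM, c, ρ, K, hc, hρ, X₀, fun X hX q r a hq hqr Q hQ hQp hQc L hLV hLX => ?_⟩
  have hV : V q X = Pool.Agent.Y843.HS.VV (Pool.Agent.U455.APC.cl q r) 0 X := Pool.Agent.U455.APC.VV_eq hqr X
  rw [hV] at hQc hLV ⊢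
  obtain ⟨⟨P, hP1, hP2⟩, h2⟩ := hmain X a hX (Pool.Agent.U455.APC.cl q r) (Pool.Agent.U455.APC.adm hqr)
    (Pool.Agent.U455.APC.slow hqr) Q (Pool.Agent.U455.APC.sub_Sift hQ hQp) hQc L hLV hLX
  refine ⟨⟨P, hP1, fun T hT => ?_⟩, fun t hMt htL => ?_⟩
  · obtain ⟨g1, g2, g3⟩ := hP2 T hT
    have e : (Pool.Agent.U455.KTW.pos Q T).card = positions Q T := by
      unfold Pool.Agent.U455.KTW.pos positions
      rfl
    rw [e] at g3
    exact ⟨g1, g2, g3⟩
  · obtain ⟨l, h3, h4, h5⟩ := h2 t hMt htL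
    refine ⟨l, h3, h4, fun d hd => ?_⟩
    obtain ⟨g1, g2, g3, g4⟩ := h5 d hd
    refine ⟨g1, g2, g3, ?_⟩
    have e : (Pool.Agent.U455.VEC.occ Q d).card = count Q d := by
      unfold Pool.Agent.U455.VEC.occ count
      rfl
    rw [e] at g4
    exact g4

end Pool.Agent.Results.MP_68a45e_nt.ShapesUniformInModulus
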