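import Pool.Agent.U455.GBS
import Pool.Agent.U455.APC

/-!
# Sums of two primes of dense sets with a common prime, uniformly in the modulus

Let `q ≥ 1`, let `r₀, ..., r_k` be coprime to `q` and `V = ∏ (1 - 1 / p)` over the primes `p ≤ X` not dividing `q`, so `X V`
is the expected order of the number of the `n` of an interval of length `X` with `n q + r_a` prime. Let
`Q₀, ..., Q_k` be ANY sets of at least `δ X V` integers `n` of intervals `(A_a, A_a + X]` with `n q + r_a > X` prime.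

A vector `N = (N₁, ..., N_k)` is popular if at least `κ X Vᵏ⁺¹` of the `n ∈ Q₀` have `N_i - n ∈ Q_i` for all `i`; then
`N_i q + r₀ + r_i = p + p_i` with a COMMON prime `p` of the first set and primes `p_i` of the other sets, in at least
`κ X Vᵏ⁺¹` ways, which is the conjectured order of magnitude (for the sets of all such primes, up to the singular series).

For every `k ≥ 1` and `δ > 0` there are `h`, `M ≥ 1` and `κ, ρ > 0`, depending on `k` and `δ` ONLY, such that for all large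
`X`, ALL `q`, `r`, `A` and `Q`:

* at least `ρ Xᵏ` of the vectors `N` with `A₀ + A_i < N_i ≤ A₀ + A_i + 2 X` are popular;
* there is `C` such that EVERY `C + t`, `t ∈ (M ℕ)ᵏ`, `t_i ≤ X`, is a sum of exactly `h` popular vectors.

Proof: first moment; upper bound sieve with arbitrary classes (`Pool.Agent.U455.GBS.upN`); mean value of the collision
weights in intervals and second moment (`mean`, `mom`); the local form of Schnirelmann's theorem in fibres (`boxes`).
-/

set_option autoImplicit false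

namespace Pool.Agent.Results.MP_7b7e48_nt.CommonPrimesUniformInModulus

open Finset

/-- the product of `1 - 1 / p` over the primes `p ≤ X` which do not divide `q` -/
noncomputable def V (q X : ℕ) : ℝ := ∏ p ∈ (Icc 1 X).filter (fun p => p.Prime ∧ ¬ p ∣ q), (1 - 1 / (p : ℝ))

/-- the number of the `n ∈ Q 0` with `N i - n ∈ Q (i + 1)` for all `i` -/
def reps {k : ℕ} (Q : Fin (k + 1) → Finset ℕ) (N : Fin k → ℕ) : ℕ :=
  ((Q 0).filter (fun n => ∀ i, ∃ m ∈ Q i.succ, n + m = N i)).card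

/-- `N` is in the box and has at least `κ X V ^ (k + 1)` common summands -/
def Popular {k : ℕ} (κ : ℝ) (q X : ℕ) (A : Fin (k + 1) → ℕ) (Q : Fin (k + 1) → Finset ℕ) (N : Fin k → ℕ) : Prop :=
  (∀ i, A 0 + A i.succ < N i ∧ N i ≤ A 0 + A i.succ + 2 * X) ∧ κ * (X * V q X ^ (k + 1)) ≤ (reps Q N : ℝ)

theorem result (k : ℕ) (hk : 1 ≤ k) (δ : ℝ) (hδ : 0 < δ) :
    ∃ h M : ℕ, 1 ≤ M ∧ ∃ κ ρ : ℝ, 0 < κ ∧ 0 < ρ ∧ ∃ X₀ : ℕ, ∀ X : ℕ, X₀ ≤ X →
    ∀ (q : ℕ) (r A : Fin (k + 1) → ℕ) (Q : Fin (k + 1) → Finset ℕ), 1 ≤ q → (∀ a, Nat.Coprime q (r a)) →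
      (∀ a, Q a ⊆ Ioc (A a) (A a + X)) → (∀ a, ∀ n ∈ Q a, (n * q + r a).Prime ∧ X < n * q + r a) →
      (∀ a, δ * (X * V q X) ≤ (Q a).card) →
      (∃ P : Finset (Fin k → ℕ), ρ * (X : ℝ) ^ k ≤ (P.card : ℝ) ∧ ∀ N ∈ P, Popular κ q X A Q N) ∧
      ∃ C : Fin k → ℕ, ∀ t : Fin k → ℕ, (∀ i, M ∣ t i) → (∀ i, t i ≤ X) →
        ∃ l : List (Fin k → ℕ), l.length = h ∧ l.sum = C + t ∧ ∀ N ∈ l, Popular κ q X A Q N := by
  obtain ⟨h, M, hM, c, ρ, hc, hρ, X₀, hmain⟩ := Pool.Agent.U455.GBS.main 1 k hk 1 δ one_pos le_rfl hδ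
  refine ⟨h, M, hM, c, ρ, hc, hρ, X₀, fun X hX q r A Q hq hqr hQ hQp hQc => ?_⟩
  have hV : ∀ a, Pool.Agent.Y843.HS.VV (Pool.Agent.U455.APC.cl q (r a)) 0 X = V q X :=
    fun a => (Pool.Agent.U455.APC.VV_eq (hqr a) X).symm
  have hm := hmain X hX (fun a => Pool.Agent.U455.APC.cl q (r a)) (fun a => Pool.Agent.U455.APC.adm (hqr a)) A Q
    (fun a => Pool.Agent.U455.APC.sub_Sift (hQ a) (hQp a)) (fun a => by rw [hV]; exact hQc a)
  have hprod : ∏ a : Fin (k + 1), Pool.Agent.Y843.HS.VV (Pool.Agent.U455.APC.cl q (r a)) 0 X = V q X ^ (k + 1) := by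
    rw [Finset.prod_congr rfl (fun a _ => hV a), prod_const, card_univ, Fintype.card_fin]
  rw [hprod] at hm
  exact hm

end Pool.Agent.Results.MP_7b7e48_nt.CommonPrimesUniformInModulus
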